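import Pool.Agent.QUD.StmtsXU

/-!
# Squad QUD (MP_5b0138_an), block X, row BAY: comparison of the germs (assembly)
-/

set_option autoImplicit false

namespace Pool.Agent.QUD.H66X

open MeasureTheory Filter Topology Real Set Pool.Agent.AEU Pool.Agent.AEU.H12 Pool.Agent.XQ
  Pool.Agent.XQ.U

/-- **BAY** -/
theorem bay (h1 : DecStmt) (h2 : AlaStmt) (h3 : XabStmt) (h4 : XlbStmt) (h5 : XmaStmt)
    (h6 : XorStmt) : BayStmt := by
  intro L l g r A B H JP J hL hl hoA hok hJP hJ hsm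
  obtain ⟨AP, hAP, -, hg, hF, hD⟩ := h1 L l hl
  have ala := h2 L AP A hL hAP hok.1
  have xab := h3 L l A B H hL hl hok
  have hsm' : Small L (fun κ => (SumA L AP κ - SumA L A κ)
      + ((l.map (gBp L κ)).sum - (SumB L B κ + SumH L H κ))
      + ((g : ℝ) + (r : ℝ) / 2) * rexp (-(L * κ)) + (JP κ - J κ)) := by
    have e : (fun κ => (SumA L AP κ - SumA L A κ)
        + ((l.map (gBp L κ)).sum - (SumB L B κ + SumH L H κ))
        + ((g : ℝ) + (r : ℝ) / 2) * rexp (-(L * κ)) + (JP κ - J κ))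
        = fun κ => gsum L l κ + JP κ - (-(g : ℝ) * rexp (-(L * κ))
          - (r : ℝ) / 2 * rexp (-(L * κ)) + SumA L A κ + SumB L B κ + SumH L H κ + J κ) := by
      funext κ
      rw [hg κ]
      ring
    rw [e]
    exact hsm
  have hx := h6 L ((g : ℝ) + (r : ℝ) / 2) (fun κ => SumA L AP κ - SumA L A κ)
    (fun κ => (l.map (gBp L κ)).sum - (SumB L B κ + SumH L H κ)) JP J _ _ hL ala xab hJP hJ hsm'
  refine ⟨hx.2, fun hJP0 => ?_⟩
  obtain ⟨hJ0, ht, ⟨hA1, hA2⟩, hB⟩ := hx.1 hJP0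
  have hg0 : (0 : ℝ) ≤ g := Nat.cast_nonneg g
  have hr0 : (0 : ℝ) ≤ r := Nat.cast_nonneg r
  have hg1 : (g : ℝ) = 0 := by linarith
  have hr1 : (r : ℝ) = 0 := by linarith
  have hxl := h4 l A B H hl hok hB
  refine ⟨hJ0, Nat.cast_eq_zero.1 hg1, Nat.cast_eq_zero.1 hr1, ?_, hxl.1, hxl.2⟩
  refine h5 l A hl hok.1 hoA (hF.symm.trans hA1) ?_
  filter_upwards [hA2] with z hz
  exact (hD z).symm.trans hz

end Pool.Agent.QUD.H66X
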