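import Pool.Agent.QUD.StmtsC

/-!
# Squad QUD (MP_5b0138_an), row COF: the corner term

`c0 β = (π² - α²) / (6 α)`, `α = π - β`, from the second moment (CEH) and the covariance (CRK) of
the support function.
-/

set_option autoImplicit false

namespace Pool.Agent.QUD.H66.COF

open MeasureTheory Complex Filter Topology ProbabilityTheory Pool.Agent.H16Iso Pool.Agent.H62T
open Pool.Agent.H16F (q c0 Law2Statement)
open Pool.Agent.H60K (us)

theorem int_mul (mom : MomStatement) (u v : ℂ) :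
    Integrable (fun ω => hs ω u * hs ω v) PP := by
  have hm := mom.1
  have h0 := mom.2.1
  refine ((mom.2.2.2 u 2).add (mom.2.2.2 v 2)).mono
    ((hm u).mul (hm v)).aestronglyMeasurable (ae_of_all _ fun ω => ?_)
  rw [Real.norm_of_nonneg (mul_nonneg (h0 u ω) (h0 v ω)), Pi.add_apply,
    Real.norm_of_nonneg (add_nonneg (sq_nonneg _) (sq_nonneg _))]
  linarith only [sq_nonneg (hs ω u - hs ω v), h0 u ω, h0 v ω, sq_nonneg (hs ω u),
    sq_nonneg (hs ω v)]

theorem int_q (mom : MomStatement) (β : ℝ) (u v : ℂ) :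
    Integrable (fun ω => q β (hs ω u) (hs ω v)) PP := by
  have h1 := (int_mul mom u v).const_mul (2 / (2 * Real.sin β))
  have h2 := (mom.2.2.2 u 2).const_mul (Real.cos β / (2 * Real.sin β))
  have h3 := (mom.2.2.2 v 2).const_mul (Real.cos β / (2 * Real.sin β))
  refine ((h1.sub h2).sub h3).congr (ae_of_all _ fun ω => ?_)
  simp only [Pi.sub_apply, q]
  ring

theorem rot_int (law2 : Law2Statement) (z : ℂ) (hz : ‖z‖ = 1) (f : (ℂ → ℝ) → ℝ)
    (hf : Integrable (fun ω => f (hs ω)) PP) :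
    ∫ ω, f (fun u => hs ω (z * u)) ∂PP = ∫ ω, f (hs ω) ∂PP := by
  obtain ⟨g, hg, h⟩ := law2.1 z hz
  have e : (fun ω => f (fun u => hs ω (z * u))) = fun ω => (fun ω => f (hs ω)) (g ω) := by
    funext ω
    have : hs (g ω) = fun u => hs ω (z * u) := funext fun u => h ω u
    simp only [this]
  have h1 := integral_map (μ := PP) hg.measurable.aemeasurable (f := fun ω => f (hs ω))
    (by rw [hg.map_eq]; exact hf.aestronglyMeasurable)
  rw [hg.map_eq] at h1
  rw [e, h1]

theorem sq_rot (law2 : Law2Statement) (mom : MomStatement) (z : ℂ) (hz : ‖z‖ = 1) :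
    ∫ ω, hs ω z ^ 2 ∂PP = ∫ ω, hs ω 1 ^ 2 ∂PP := by
  have h := rot_int law2 z hz (fun h => h 1 ^ 2) (mom.2.2.2 _ _)
  simp only [mul_one] at h
  exact h

theorem c0_rot (law2 : Law2Statement) (mom : MomStatement) (β : ℝ) (z w : ℂ) (hz : ‖z‖ = 1)
    (hw : w = z * Complex.exp (β * I)) :
    c0 β = ∫ ω, q β (hs ω z) (hs ω w) ∂PP := by
  have h := rot_int law2 z hz (fun h => q β (h 1) (h (Complex.exp (β * I)))) (int_q mom β _ _)
  unfold c0
  rw [← h, hw]
  simp only [mul_one]

/-- the two unit vectors of the wedge form the angle `β` -/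
theorem us_two (β : ℝ) : us ((Real.pi - β) / 2) ((Real.pi - β) / 2) 2
    = us ((Real.pi - β) / 2) ((Real.pi - β) / 2) 1 * Complex.exp (β * I) := by
  have e1 : us ((Real.pi - β) / 2) ((Real.pi - β) / 2) 1
      = I * Complex.exp (((Real.pi - β) / 2 : ℝ) * I) := by simp [us]
  have e2 : us ((Real.pi - β) / 2) ((Real.pi - β) / 2) 2
      = -(I * Complex.exp (-(((Real.pi - β) / 2 : ℝ) * I))) := by simp [us]
  rw [e1, e2]
  have e3 : Complex.exp (((Real.pi - β) / 2 : ℝ) * I) * Complex.exp (β * I)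
      = Complex.exp (Real.pi * I) * Complex.exp (-(((Real.pi - β) / 2 : ℝ) * I)) := by
    rw [← Complex.exp_add, ← Complex.exp_add]
    apply congrArg
    push_cast
    ring
  rw [mul_assoc, e3, Complex.exp_pi_mul_I]
  ring

theorem norm_us_one (η1 η2 : ℝ) : ‖us η1 η2 1‖ = 1 := by
  have e1 : us η1 η2 1 = I * Complex.exp ((η1 : ℂ) * I) := by simp [us]
  rw [e1, norm_mul, Complex.norm_I, Complex.norm_exp_ofReal_mul_I, one_mul]

end Pool.Agent.QUD.H66.COF

namespace Pool.Agent.QUD.H66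

open MeasureTheory Complex Filter Topology ProbabilityTheory Pool.Agent.H16Iso Pool.Agent.H62T
open Pool.Agent.H16F (q c0 Law2Statement)
open Pool.Agent.H60K (us)

/-- **COF** -/
theorem cof (h1 : CehStmt) (h2 : CrkStmt) (law2 : Law2Statement) (mom : MomStatement) :
    CofStmt := by
  intro β hβ0 hβ1
  have hpi := Real.pi_pos
  have hs : 0 < Real.sin β := Real.sin_pos_of_pos_of_lt_pi hβ0 hβ1
  have hα : 0 < Real.pi - β := by linarith
  set z : ℂ := us ((Real.pi - β) / 2) ((Real.pi - β) / 2) 1 with hz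
  set w : ℂ := us ((Real.pi - β) / 2) ((Real.pi - β) / 2) 2 with hw
  have hzn : ‖z‖ = 1 := COF.norm_us_one _ _
  have hwz : w = z * Complex.exp (β * I) := COF.us_two β
  have hwn : ‖w‖ = 1 := by
    rw [hwz, norm_mul, hzn, Complex.norm_exp_ofReal_mul_I, one_mul]
  have hk := h2 ((Real.pi - β) / 2) ((Real.pi - β) / 2) (by linarith) (by linarith) (by linarith)
  rw [add_halves, Real.cos_pi_sub, Real.sin_pi_sub, ← hz, ← hw] at hk
  have hz2 : ∫ ω, Pool.Agent.H62T.hs ω z ^ 2 ∂PP = 1 :=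
    (COF.sq_rot law2 mom z hzn).trans h1
  have hw2 : ∫ ω, Pool.Agent.H62T.hs ω w ^ 2 ∂PP = 1 :=
    (COF.sq_rot law2 mom w hwn).trans h1
  rw [COF.c0_rot law2 mom β z w hzn hwz]
  have i1 := COF.int_mul mom z w
  have i2 := mom.2.2.2 z 2
  have i3 := mom.2.2.2 w 2
  have e : ∀ ω, q β (Pool.Agent.H62T.hs ω z) (Pool.Agent.H62T.hs ω w)
      = 2 / (2 * Real.sin β) * (Pool.Agent.H62T.hs ω z * Pool.Agent.H62T.hs ω w)
        - Real.cos β / (2 * Real.sin β) * Pool.Agent.H62T.hs ω z ^ 2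
        - Real.cos β / (2 * Real.sin β) * Pool.Agent.H62T.hs ω w ^ 2 := by
    intro ω
    simp only [q]
    ring
  simp only [e]
  have j1 : Integrable (fun ω => 2 / (2 * Real.sin β) *
      (Pool.Agent.H62T.hs ω z * Pool.Agent.H62T.hs ω w)) PP := i1.const_mul _
  have j2 : Integrable (fun ω => Real.cos β / (2 * Real.sin β) *
      Pool.Agent.H62T.hs ω z ^ 2) PP := i2.const_mul _
  have j3 : Integrable (fun ω => Real.cos β / (2 * Real.sin β) *
      Pool.Agent.H62T.hs ω w ^ 2) PP := i3.const_mul _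
  have j4 : Integrable (fun ω => 2 / (2 * Real.sin β) *
      (Pool.Agent.H62T.hs ω z * Pool.Agent.H62T.hs ω w)
      - Real.cos β / (2 * Real.sin β) * Pool.Agent.H62T.hs ω z ^ 2) PP := j1.sub j2
  rw [integral_sub j4 j3, integral_sub j1 j2, integral_const_mul, integral_const_mul,
    integral_const_mul, hz2, hw2, hk]
  field_simp
  ring

end Pool.Agent.QUD.H66
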