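import Pool.Agent.QUD.StmtsL

set_option autoImplicit false

/-! # Row GRM: the germ of a dying side -/

namespace Pool.Agent.QUD.H66

open MeasureTheory Complex Filter Topology ProbabilityTheory Pool.Agent.H16Iso Pool.Agent.H62T
open Pool.Agent.H16F (Sublin ind)
open Pool.Agent.AEU Pool.Agent.XQ

lemma ipc (z w : ℂ) : ip z w = ip w z := by
  unfold ip; ring

lemma dtc (z w : ℂ) : dt z w = -dt w z := by
  unfold dt; ring

lemma vxc (s t : HP) : vx s t = vx t s := by
  unfold vx
  rw [dtc t.1 s.1]
  push_cast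
  rw [div_neg, ← neg_div]
  congr 1
  ring

lemma nsq {z : ℂ} (h : ‖z‖ = 1) : z.re * z.re + z.im * z.im = 1 := by
  have h1 := Complex.sq_norm z
  rw [h, Complex.normSq_apply] at h1
  linarith

lemma base (a b c : HP) (v w : ℂ) (hb : ‖b.1‖ = 1) (h1 : ip a.1 v = a.2) (h2 : ip b.1 v = b.2)
    (h3 : ip b.1 w = b.2) (h4 : ip c.1 w = c.2) (h5 : ip a.1 w < a.2) (hab : 0 < dt a.1 b.1) :
    a.2 - ip a.1 w = ‖v - w‖ * dt a.1 b.1 ∧ c.2 - ip c.1 v = ‖v - w‖ * dt b.1 c.1 := by
  have hu := nsq hb
  set τ : ℝ := b.1.re * (w.im - v.im) - b.1.im * (w.re - v.re) with hτ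
  have hz : b.1.re * (w.re - v.re) + b.1.im * (w.im - v.im) = 0 := by
    unfold ip at h2 h3
    linarith
  have e1 : w.re - v.re = -τ * b.1.im := by
    rw [hτ]
    linear_combination (b.1.re) * hz - (w.re - v.re) * hu
  have e2 : w.im - v.im = τ * b.1.re := by
    rw [hτ]
    linear_combination (b.1.im) * hz - (w.im - v.im) * hu
  have e3 : a.2 - ip a.1 w = τ * dt a.1 b.1 := by
    rw [← h1]
    unfold ip dt
    linear_combination (-a.1.re) * e1 - a.1.im * e2
  have e4 : c.2 - ip c.1 v = τ * dt b.1 c.1 := by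
    rw [← h4]
    unfold ip dt
    linear_combination c.1.re * e1 + c.1.im * e2
  have hpos : 0 < τ := by
    by_contra hcon
    push Not at hcon
    have : τ * dt a.1 b.1 ≤ 0 := mul_nonpos_of_nonpos_of_nonneg hcon hab.le
    linarith
  have hn : ‖v - w‖ = τ := by
    have h6 : ‖v - w‖ ^ 2 = τ ^ 2 := by
      rw [Complex.sq_norm, Complex.normSq_apply, Complex.sub_re, Complex.sub_im]
      have e5 : v.re - w.re = τ * b.1.im := by linarith
      have e6 : v.im - w.im = -(τ * b.1.re) := by linarith
      rw [e5, e6]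
      linear_combination τ ^ 2 * hu
    exact (pow_left_inj₀ (norm_nonneg _) hpos.le (two_ne_zero)).mp h6
  rw [hn]
  exact ⟨e3, e4⟩

lemma dt_sin {z w : ℂ} {x : ℝ} (hz : ‖z‖ = 1) (hw : ‖w‖ = 1) (hx0 : 0 < x) (hx1 : x < Real.pi)
    (h : ip z w = -Real.cos x) (hd : 0 < dt z w) : dt z w = Real.sin x := by
  have h1 := nsq hz
  have h2 := nsq hw
  have h3 : ip z w ^ 2 + dt z w ^ 2 = 1 := by
    unfold ip dt
    have e : (z.re * w.re + z.im * w.im) ^ 2 + (z.re * w.im - z.im * w.re) ^ 2 =
        (z.re * z.re + z.im * z.im) * (w.re * w.re + w.im * w.im) := by ring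
    rw [e, h1, h2, one_mul]
  have h4 : dt z w ^ 2 = Real.sin x ^ 2 := by
    have := Real.sin_sq_add_cos_sq x
    rw [h] at h3
    linarith [neg_sq (Real.cos x)]
  exact (pow_left_inj₀ hd.le (Real.sin_pos_of_pos_of_lt_pi hx0 hx1).le (two_ne_zero)).mp h4

lemma ip_add {a b c : ℂ} (hb : ‖b‖ = 1) : ip a c = ip a b * ip b c - dt a b * dt b c := by
  have h := nsq hb
  unfold ip dt
  linear_combination (-(a.re * c.re + a.im * c.im)) * h

lemma cos_inj {s t : ℝ} (hs0 : 0 < s) (hs1 : s < Real.pi) (ht0 : 0 < t) (ht1 : t < Real.pi)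
    (h : Real.cos s = Real.cos t) : s = t :=
  Real.injOn_cos ⟨hs0.le, hs1.le⟩ ⟨ht0.le, ht1.le⟩ h

/-- the angles of the type B are determined -/
lemma angle_B {α η x y : ℝ} (hη0 : 0 < η) (hηα : η < α) (hα : α < Real.pi) (hx0 : 0 < x)
    (hx : x < Real.pi / 2) (hy : Real.pi / 2 < y) (hy1 : y < Real.pi)
    (h1 : -Real.cos y = -Real.cos α) (h2 : -Real.cos x = -Real.sin η)
    (h3 : Real.cos (x + y) = -Real.sin (α - η)) : α = y ∧ η = Real.pi / 2 - x := by
  have hpi := Real.pi_pos
  have e1 : α = y := cos_inj (by linarith) hα (by linarith) hy1 (by linarith)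
  subst e1
  refine ⟨rfl, ?_⟩
  have h4 : Real.sin η = Real.cos x := by linarith
  rcases le_or_gt η (Real.pi / 2) with h5 | h5
  · have h6 : Real.cos (Real.pi / 2 - η) = Real.cos x := by
      rw [Real.cos_pi_div_two_sub, h4]
    rcases eq_or_lt_of_le h5 with h7 | h7
    · exfalso
      rw [h7, sub_self, Real.cos_zero] at h6
      have h8 := Real.cos_lt_cos_of_nonneg_of_le_pi_div_two le_rfl hx.le hx0
      rw [Real.cos_zero] at h8
      linarith
    · have h8 := cos_inj (s := Real.pi / 2 - η) (t := x) (by linarith) (by linarith) hx0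
        (by linarith) h6
      linarith
  · exfalso
    have h6 : Real.cos (η - Real.pi / 2) = Real.cos x := by
      rw [Real.cos_sub_pi_div_two, h4]
    have h8 := cos_inj (s := η - Real.pi / 2) (t := x) (by linarith) (by linarith) hx0
      (by linarith) h6
    have h9 : α - η = (α - x) - Real.pi / 2 := by linarith
    rw [h9, Real.sin_sub_pi_div_two, neg_neg, Real.cos_add, Real.cos_sub] at h3
    have h10 : Real.sin x * Real.sin α = 0 := by linear_combination (-1 / 2) * h3
    have h11 := Real.sin_pos_of_pos_of_lt_pi hx0 (by linarith)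
    have h12 := Real.sin_pos_of_pos_of_lt_pi (x := α) (by linarith) (by linarith)
    exact absurd h10 (mul_pos h11 h12).ne'

theorem grm (hI : ItgStatement) (g1 : GermAStmt) (g2 : GermBStmt) (g3 : GermB'Stmt)
    (g4 : GermDXStmt) (g5 : GermIsoStmt) (g6 : GermAhStmt) (g7 : GermBrStmt)
    (hV : VxxStatement) : GrmStmt := by
  intro a b c d L x y hC hL hD
  obtain ⟨-, -, iA, iH, iB, -, -, -⟩ := hI g1 g2 g3 g4 g5 g6 g7 {a, b, c} L hL
  obtain ⟨-, v2, -, -, -, -, -, -, -, -, -⟩ := hV {a, b, c, d} hC.pg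
  have hpi := Real.pi_pos
  obtain ⟨nab, nac, nad, nbc, nbd, ncd⟩ := hC.ne
  have ma : a ∈ ({a, b, c, d} : Finset HP) := by simp
  have mb' : b ∈ ({a, b, c, d} : Finset HP) := by simp
  have mc : c ∈ ({a, b, c, d} : Finset HP) := by simp
  have ua := hC.pg.unit a ma
  have ub := hC.pg.unit b mb'
  have uc := hC.pg.unit c mc
  have card : ({a, b, c} : Finset HP).card = 3 :=
    Finset.card_eq_three.mpr ⟨a, b, c, nab, nac, nbc, rfl⟩
  have in1 : ip c.1 (vx a b) < c.2 := v2 a b _ hC.vab c mc nac.symm nbc.symm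
  have in2 : ip a.1 (vx b c) < a.2 := v2 b c _ hC.vbc a ma nab nac
  obtain ⟨l1, l2⟩ := base a b c (vx a b) (vx b c) ub hC.vab.on₁ hC.vab.on₂ hC.vbc.on₁ hC.vbc.on₂
    in2 hC.ab
  have sx := dt_sin ua ub hD.x0 hD.x1 hD.cx hC.ab
  have sy := dt_sin ub uc hD.y0 hD.y1 hD.cy hC.bc
  have hac : ip a.1 c.1 = Real.cos (x + y) := by
    rw [ip_add ub, hD.cx, hD.cy, sx, sy, Real.cos_add]
    ring
  have hcxy1 : -1 < Real.cos (x + y) := by
    have h1 : Real.cos (x + y) = -Real.cos (x + y - Real.pi) := by
      rw [Real.cos_sub_pi, neg_neg]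
    rw [h1]
    have h2 : Real.cos (x + y - Real.pi) < Real.cos 0 := by
      apply Real.cos_lt_cos_of_nonneg_of_le_pi le_rfl
      · linarith [hD.x1, hD.y1]
      · linarith [hD.sum]
    rw [Real.cos_zero] at h2
    linarith
  have cx1 : Real.cos x < 1 := by
    have := Real.cos_lt_cos_of_nonneg_of_le_pi le_rfl hD.x1.le hD.x0
    rwa [Real.cos_zero] at this
  have cy1 : Real.cos y < 1 := by
    have := Real.cos_lt_cos_of_nonneg_of_le_pi le_rfl hD.y1.le hD.y0
    rwa [Real.cos_zero] at this
  have cx2 : -1 < Real.cos x := by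
    have := Real.cos_lt_cos_of_nonneg_of_le_pi hD.x0.le le_rfl hD.x1
    rwa [Real.cos_pi] at this
  have cy2 : -1 < Real.cos y := by
    have := Real.cos_lt_cos_of_nonneg_of_le_pi hD.y0.le le_rfl hD.y1
    rwa [Real.cos_pi] at this
  have hsx := Real.sin_pos_of_pos_of_lt_pi hD.x0 hD.x1
  have hsy := Real.sin_pos_of_pos_of_lt_pi hD.y0 hD.y1
  unfold gE
  split_ifs with h1 h2 h3 h4
  · -- `x` acute
    have hy : Real.pi / 2 < y := by linarith [hD.sum]
    have cyn : Real.cos y < 0 := Real.cos_neg_of_pi_div_two_lt_of_lt hy (by linarith [hD.y1])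
    have cxp : 0 < Real.cos x := Real.cos_pos_of_mem_Ioo ⟨by linarith [hD.x0], h1⟩
    have cxyn : Real.cos (x + y) < 0 :=
      Real.cos_neg_of_pi_div_two_lt_of_lt (by linarith [hD.sum]) (by linarith [hD.y1])
    have hlen : L / 2 = ‖vx a b - vx b c‖ * Real.sin x := by
      rw [hD.len]
      unfold sn
      rw [if_pos h1, if_neg (not_lt.mpr hy.le), mul_one]
    have hKB : KB {a, b, c} L (-Real.cos y) (-Real.cos x) (Real.cos (x + y)) := by
      refine ⟨b, c, a, ?_, card, ?_, by linarith⟩
      · ext t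
        simp only [Finset.mem_insert, Finset.mem_singleton]
        tauto
      · exact
          { ui := ub
            uj := uc
            uq := ua
            ij := hD.cy
            iq := by rw [ipc]; exact hD.cx
            jq := by rw [ipc]; exact hac
            lt := by rw [abs_lt]; constructor <;> linarith
            lta := by linarith
            ltb := hcxy1
            nega := by linarith
            negb := cxyn
            len := by rw [l1, sx, hlen] }
    obtain ⟨α, η, -, b1, b2, b3, b4, b5, b6, b7⟩ := iB _ _ _ hKB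
    obtain ⟨r1, r2⟩ := angle_B b1 b2 b3 hD.x0 h1 hy hD.y1 b4 b5 b6
    rw [r1, r2] at b7
    exact b7
  · -- `y` acute
    have hx : Real.pi / 2 < x := by linarith [hD.sum]
    have cxn : Real.cos x < 0 := Real.cos_neg_of_pi_div_two_lt_of_lt hx (by linarith [hD.x1])
    have cyp : 0 < Real.cos y := Real.cos_pos_of_mem_Ioo ⟨by linarith [hD.y0], h2⟩
    have cxyn : Real.cos (x + y) < 0 :=
      Real.cos_neg_of_pi_div_two_lt_of_lt (by linarith [hD.sum]) (by linarith [hD.x1])
    have hlen : L / 2 = ‖vx a b - vx b c‖ * Real.sin y := by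
      rw [hD.len]
      unfold sn
      rw [if_neg h1, if_pos h2, mul_one]
    have hKB : KB {a, b, c} L (-Real.cos x) (-Real.cos y) (Real.cos (y + x)) := by
      refine ⟨b, a, c, ?_, card, ?_, by linarith⟩
      · ext t
        simp only [Finset.mem_insert, Finset.mem_singleton]
        tauto
      · exact
          { ui := ub
            uj := ua
            uq := uc
            ij := by rw [ipc]; exact hD.cx
            iq := hD.cy
            jq := by rw [add_comm y x]; exact hac
            lt := by rw [abs_lt]; constructor <;> linarith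
            lta := by linarith
            ltb := by rw [add_comm y x]; exact hcxy1
            nega := by linarith
            negb := by rw [add_comm y x]; exact cxyn
            len := by rw [vxc b a, l2, sy, hlen] }
    obtain ⟨α, η, -, b1, b2, b3, b4, b5, b6, b7⟩ := iB _ _ _ hKB
    obtain ⟨r1, r2⟩ := angle_B b1 b2 b3 hD.y0 h2 hx hD.x1 b4 b5 b6
    rw [r1, r2] at b7
    exact b7
  · -- `x` right
    have hy : Real.pi / 2 < y := by linarith [hD.sum]
    have cyn : Real.cos y < 0 := Real.cos_neg_of_pi_div_two_lt_of_lt hy (by linarith [hD.y1])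
    have hlen : L / 2 = ‖vx a b - vx b c‖ := by
      rw [hD.len]
      unfold sn
      rw [if_neg h1, if_neg h2, mul_one, mul_one]
    have hK : KAh {a, b, c} L (-Real.cos y) := by
      refine ⟨c, b, a, ?_, card, uc, ub, ua, ?_, by linarith, by linarith, ?_, ?_, ?_, ?_, ?_⟩
      · ext t
        simp only [Finset.mem_insert, Finset.mem_singleton]
        tauto
      · rw [ipc]; exact hD.cy
      · rw [ipc, hD.cx, h3, Real.cos_pi_div_two, neg_zero]
      · rw [dtc c.1 b.1, dtc b.1 a.1, sx, sy]
        nlinarith [mul_pos hsx hsy]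
      · unfold eA
        rw [vxc c b, vxc b a, norm_sub_rev]
        linarith
      · rw [vxc c b]; exact in2
      · rw [vxc b a]; exact in1
    obtain ⟨α, b1, b2, b3, b4⟩ := iH _ hK
    have r1 : α = y := cos_inj (by linarith) b2 hD.y0 hD.y1 (by linarith)
    rw [r1] at b4
    exact b4
  · -- `y` right
    have hx : Real.pi / 2 < x := lt_of_le_of_ne (not_lt.mp h1) (Ne.symm h3)
    have cxn : Real.cos x < 0 := Real.cos_neg_of_pi_div_two_lt_of_lt hx (by linarith [hD.x1])
    have hlen : L / 2 = ‖vx a b - vx b c‖ := by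
      rw [hD.len]
      unfold sn
      rw [if_neg h1, if_neg h2, mul_one, mul_one]
    have hK : KAh {a, b, c} L (-Real.cos x) := by
      refine ⟨a, b, c, rfl, card, ua, ub, uc, hD.cx, by linarith, by linarith, ?_, ?_, ?_, in1,
        in2⟩
      · rw [hD.cy, h4, Real.cos_pi_div_two, neg_zero]
      · rw [sx, sy]
        exact mul_pos hsx hsy
      · unfold eA
        linarith
    obtain ⟨α, b1, b2, b3, b4⟩ := iH _ hK
    have r1 : α = x := cos_inj (by linarith) b2 hD.x0 hD.x1 (by linarith)
    rw [r1] at b4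
    exact b4
  · -- both obtuse
    have hx : Real.pi / 2 < x := lt_of_le_of_ne (not_lt.mp h1) (Ne.symm h3)
    have hy : Real.pi / 2 < y := lt_of_le_of_ne (not_lt.mp h2) (Ne.symm h4)
    have cxn : Real.cos x < 0 := Real.cos_neg_of_pi_div_two_lt_of_lt hx (by linarith [hD.x1])
    have cyn : Real.cos y < 0 := Real.cos_neg_of_pi_div_two_lt_of_lt hy (by linarith [hD.y1])
    have hlen : L / 2 = ‖vx a b - vx b c‖ := by
      rw [hD.len]
      unfold sn
      rw [if_neg h1, if_neg h2, mul_one, mul_one]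
    have hK : KA {a, b, c} L (-Real.cos x) (-Real.cos y) := by
      refine ⟨a, b, c, rfl, card, ?_⟩
      exact
        { ui := ua
          uj := ub
          uk := uc
          ij := hD.cx
          jk := hD.cy
          pos := by linarith
          pos' := by linarith
          lt := by linarith
          lt' := by linarith
          or := by rw [sx, sy]; exact mul_pos hsx hsy
          len := by unfold eA; linarith
          in₁ := in1
          in₂ := in2 }
    obtain ⟨β, β', ⟨o1, o2, o3, o4⟩, b1, b2, b3⟩ := iA _ _ hK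
    simp only at o1 o2 o3 o4
    have r1 : Real.pi - x = β := cos_inj (by linarith [hD.x1]) (by linarith) o1 (by linarith)
      (by rw [Real.cos_pi_sub]; exact b1)
    have r2 : Real.pi - y = β' := cos_inj (by linarith [hD.y1]) (by linarith) o3 (by linarith)
      (by rw [Real.cos_pi_sub]; exact b2)
    rw [r1, r2]
    exact b3

end Pool.Agent.QUD.H66
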