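import Pool.Agent.QUD.StmtsY

/-!
# Squad QUD (MP_5b0138_an), block Y, row NCM: an item of the middle type
-/

set_option autoImplicit false

namespace Pool.Agent.QUD.H66M

open Complex Filter Topology Pool.Agent.H62T Pool.Agent.AEU Pool.Agent.XQ

theorem ipc (z w : ℂ) : ip z w = ip w z := by
  simp only [ip]; ring

/-- **NCM** -/
theorem ncm (h1 : NckStmt) (h2 : CrdStmt) (vxx : VxxStatement) : NcmStmt := by
  intro X L p hX hL hB ha1 ha2 hb1 hb2 hPB
  obtain ⟨i, j, q, v, hv, hq, hqi, hqj, e1, e2, e3, e4, e5⟩ := hPB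
  have hsymm : VxOf X j i v := ((vxx X hX).2.2.2.2.1 i j v hv).2.1
  obtain ⟨w, hw, -⟩ := h1 X L hX hL hB i j q v p.1 (p.1 - p.2) hv hq hqi hqj e1 e2 ha1 ha2
    (by linarith) (by linarith) (by linarith) e3 e5 (by rw [sub_sub_cancel]; exact e4)
  obtain ⟨w', hw', -⟩ := h1 X L hX hL hB j i q v p.1 p.2 hsymm hq hqj hqi e1 e2 ha1 ha2
    (by linarith) hb2 (by linarith) (by rw [ipc]; exact e3) e4 e5
  exact (h2 X hX).1 i j q v w w' hv hw hw'

end Pool.Agent.QUD.H66M
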